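import Pool.Agent.Helper17.QD.Glue

/-!
# Project QD, GLUE (MP_d112a4_gt): module MVS, the new state
-/

set_option autoImplicit false

open Filter Topology Matrix Set Metric MeasureTheory
open scoped ComplexConjugate ComplexOrder ENNReal

namespace Pool.Agent.Helper66.QL

open Pool.Agent.Helper17.QD
open Pool.Agent.Helper35.PM
open Pool.Agent.Helper68.QC (nq Bel InvB Intw Sol)
open Pool.Agent.Helper20.QD (Fuch cj IsSU)

private theorem pseudo (K : ℝ) (hK0 : 0 ≤ K) (hK1 : K < 1) (a b : ℂ) (ha : ‖a‖ ≤ K) (hb : ‖b‖ ≤ K) :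
    ‖a - b‖ ≤ 2 * K / (1 + K ^ 2) * ‖1 - conj b * a‖ ∧ 0 < ‖1 - conj b * a‖ := by
  have e1 : ‖1 - conj b * a‖ ^ 2 - ‖a - b‖ ^ 2 = (1 - ‖a‖ ^ 2) * (1 - ‖b‖ ^ 2) := by
    simp only [← Complex.normSq_eq_norm_sq, Complex.normSq_apply, Complex.sub_re, Complex.sub_im,
      Complex.mul_re, Complex.mul_im, Complex.conj_re, Complex.conj_im, Complex.one_re, Complex.one_im]
    ring
  have ha0 := norm_nonneg a
  have hb0 := norm_nonneg b
  have hK2 : 0 < 1 - K ^ 2 := by nlinarith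
  have ha2 : ‖a‖ ^ 2 ≤ K ^ 2 := pow_le_pow_left₀ ha0 ha 2
  have hb2 : ‖b‖ ^ 2 ≤ K ^ 2 := pow_le_pow_left₀ hb0 hb 2
  have e2 : (1 - K ^ 2) * (1 - K ^ 2) ≤ (1 - ‖a‖ ^ 2) * (1 - ‖b‖ ^ 2) :=
    mul_le_mul (by linarith) (by linarith) hK2.le (by linarith)
  have e3 : ‖a - b‖ ≤ 2 * K := by
    have := norm_sub_le a b
    linarith
  have e4 : ‖a - b‖ ^ 2 ≤ (2 * K) ^ 2 := pow_le_pow_left₀ (norm_nonneg _) e3 2
  constructor
  · rw [div_mul_eq_mul_div, le_div_iff₀ (by positivity)]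
    apply le_of_sq_le_sq _ (by positivity)
    have e5 : (1 - K ^ 2) * (1 - K ^ 2) * ‖a - b‖ ^ 2 ≤ (1 - K ^ 2) * (1 - K ^ 2) * (2 * K) ^ 2 :=
      mul_le_mul_of_nonneg_left e4 (by positivity)
    have e6 : (2 * K) ^ 2 * ((1 - K ^ 2) * (1 - K ^ 2)) ≤ (2 * K) ^ 2 * ((1 - ‖a‖ ^ 2) * (1 - ‖b‖ ^ 2)) :=
      mul_le_mul_of_nonneg_left e2 (by positivity)
    rw [← e1] at e6
    nlinarith
  · have h1 : 0 < ‖1 - conj b * a‖ ^ 2 := by
      have := sq_nonneg ‖a - b‖
      nlinarith [mul_pos hK2 hK2]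
    by_contra h
    have h2 : ‖1 - conj b * a‖ = 0 := le_antisymm (not_lt.1 h) (norm_nonneg _)
    rw [h2] at h1
    simp at h1

theorem hMVS (hFPC : StFPC) (hINC : StINC) (hEX : Pool.Agent.Helper68.QC.StEX)
    (hUNI : Pool.Agent.Helper68.QC.StUNI) (hCMP : Pool.Agent.Helper68.QC.StCMP)
    (hNUL : Pool.Agent.Helper68.QC.StNUL) : StMVS := by
  intro Γ _ σ s1 ρ ρ' μ κ k k0 N hk0 hk1 hS hs1 hN hκ hκI hlt heq hmI
  classical
  set K : ℝ := max k k0 with hKdef
  have hK0 : 0 ≤ K := hk0.trans (le_max_right _ _)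
  have hK1 : K < 1 := max_lt hS.k1 hk1
  have hκK : Bel K κ := ⟨hκ.meas, fun z => (hκ.le z).trans (le_max_right _ _)⟩
  have hmK : Bel K (mix μ κ) := by
    refine ⟨?_, ?_⟩
    · unfold mix
      exact Measurable.ite (measurableSet_lt measurable_const measurable_norm) hκ.meas hS.bel.meas
    · intro z
      unfold mix
      split_ifs
      · exact (hκ.le z).trans (le_max_right _ _)
      · exact (hS.bel.le z).trans (le_max_left _ _)
  set δ : ℝ := 2 * K / (1 + K ^ 2) with hδdef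
  have hδ0 : 0 ≤ δ := by positivity
  have hδ1 : δ < 1 := by
    rw [hδdef, div_lt_one (by positivity)]
    nlinarith [sq_pos_of_pos (sub_pos.2 hK1)]
  obtain ⟨ν, hν, hcomp, hνae⟩ := hCMP K hK1 (mix μ κ) κ hmK hκK δ hδ1 fun z =>
    (pseudo K hK0 hK1 _ _ (hmK.le z) (hκK.le z)).1
  -- the coefficient vanishes outside
  have hgt : ∀ z, 1 < ‖nq κ z‖ ↔ 1 < ‖z‖ := by
    intro z
    constructor
    · intro h
      by_contra hz
      rcases lt_or_eq_of_le (not_lt.1 hz) with h1 | h1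
      · exact absurd ((hlt z).2 h1) (not_lt.2 h.le)
      · exact absurd ((heq z).2 h1) h.ne'
    · intro h
      by_contra hz
      rcases lt_or_eq_of_le (not_lt.1 hz) with h1 | h1
      · exact absurd ((hlt z).1 h1) (not_lt.2 h.le)
      · exact absurd ((heq z).1 h1) h.ne'
  have hz0 : volume {z : ℂ | 1 < ‖z‖ ∧ ν (nq κ z) ≠ 0} = 0 := by
    have hνae' := hνae
    rw [ae_iff] at hνae'
    apply measure_mono_null _ hνae'
    rintro z ⟨hz1, hz2⟩ h
    have hm : mix μ κ z = κ z := if_pos hz1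
    have hpos := (pseudo K hK0 hK1 _ _ (hmK.le z) (hκK.le z)).2
    rw [hm] at h hpos
    rw [sub_self, norm_zero] at h
    rcases mul_eq_zero.1 h with h1 | h1
    · exact hz2 (norm_eq_zero.1 h1)
    · exact hpos.ne' h1
  have hy0 : volume {y : ℂ | 1 < ‖y‖ ∧ ν y ≠ 0} = 0 := by
    have himg : {y : ℂ | 1 < ‖y‖ ∧ ν y ≠ 0} = nq κ '' {z : ℂ | 1 < ‖z‖ ∧ ν (nq κ z) ≠ 0} := by
      ext y
      constructor
      · rintro ⟨h1, h2⟩
        refine ⟨(nq κ).symm y, ⟨?_, ?_⟩, (nq κ).apply_symm_apply y⟩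
        · rw [← hgt, (nq κ).apply_symm_apply]
          exact h1
        · rw [(nq κ).apply_symm_apply]
          exact h2
      · rintro ⟨z, ⟨h1, h2⟩, rfl⟩
        exact ⟨(hgt z).2 h1, h2⟩
    rw [himg]
    exact (hNUL K hK1 κ hκK _).2 hz0
  have hS0 : volume (sphere (0 : ℂ) 1) = 0 := Measure.addHaar_sphere _ _ _
  let ν' : ℂ → ℂ := fun y => if ‖y‖ < 1 then ν y else 0
  have hν' : Bel δ ν' := by
    refine ⟨?_, ?_⟩
    · exact Measurable.ite (measurableSet_lt measurable_norm measurable_const) hν.meas measurable_const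
    · intro y
      by_cases hy : ‖y‖ < 1
      · have : ν' y = ν y := if_pos hy
        rw [this]
        exact hν.le y
      · have : ν' y = 0 := if_neg hy
        rw [this, norm_zero]
        exact hδ0
  have hae : ∀ᵐ y : ℂ, ν' y = ν y := by
    rw [ae_iff]
    apply measure_mono_null _ (measure_union_null hy0 hS0)
    intro y hy
    have hy1 : ν' y ≠ ν y := hy
    by_cases h1 : ‖y‖ < 1
    · exact absurd (if_pos h1) hy1
    · have h2 : ν' y = 0 := if_neg h1
      rw [h2] at hy1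
      rcases lt_or_eq_of_le (not_lt.1 h1) with h3 | h3
      · left
        exact ⟨h3, fun h => hy1 h.symm⟩
      · right
        rw [mem_sphere_zero_iff_norm]
        exact h3.symm
  have hnq : nq ν = nq ν' := by
    have hE := hEX δ hδ1 ν hν
    refine hUNI δ hδ1 ν' hν' (nq ν) hE.zero hE.one ∅ finite_empty ?_
    rw [compl_empty]
    obtain ⟨a, b, hwd, hab⟩ := hE.sol
    refine ⟨a, b, hwd, ?_⟩
    rw [Measure.restrict_univ] at hab ⊢
    filter_upwards [hab, hae] with z h1 h2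
    rw [h1, h2]
  have hint : ∀ γ, Intw (cj N s1 γ) (ρ' γ) (nq ν') := by
    intro γ
    rw [← hnq]
    obtain ⟨a1, a2, a3, a4⟩ := hκI γ
    obtain ⟨b1, b2, b3, b4⟩ := hmI γ
    refine ⟨?_, ?_, ?_, ?_⟩
    · intro y
      have hy := (nq κ).apply_symm_apply y
      have e1 := a1 ((nq κ).symm y)
      have e2 := b1 ((nq κ).symm y)
      rw [hcomp] at e2
      rw [hy] at e1 e2
      exact e1.symm.trans e2
    · intro y hyd
      have hy := (nq κ).apply_symm_apply y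
      have e1 := a1 ((nq κ).symm y)
      rw [hy] at e1
      have hd : Pool.Agent.Helper68.QC.den (σ γ) ((nq κ).symm y) ≠ 0 := fun h => hyd (e1.1 h)
      have e2 := a2 ((nq κ).symm y) hd
      have e3 := b2 ((nq κ).symm y) hd
      rw [hcomp, hcomp, e2, hy] at e3
      exact e3
    · exact a3.symm.trans b3
    · intro hB
      have hA : (σ γ) 1 0 ≠ 0 := fun h => hB (a3.1 h)
      have e1 := a4 hA
      have e2 := b4 hA
      rw [hcomp, e1] at e2
      exact e2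
  exact ⟨ν', δ, (hFPC Γ s1 hs1).2.2 N hN, hδ0, hδ1, hν', fun z hz => if_neg (not_lt.2 hz),
    fun γ => hINC δ hδ1 ν' hν' _ _ (hint γ), hint⟩

end Pool.Agent.Helper66.QL
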